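import Pool.Agent.H500.ZO.Stm

set_option autoImplicit false

/-!
# Project ZO, part 4 (helper168 for helper500): the trace form of a semisimple representation

Without Clifford's theorem: the radical `R` of the trace form of the algebra `A` of `U` is stable under the
conjugations by `G`, so the subspace `K` killed by `R` is stable under `G`; a stable complement `W'` of `K` is zero,
because a nonzero `A`-stable subspace contains a nonzero vector killed by `R` (take a minimal one).
-/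

namespace Pool.Agent.H168.ZO.RAD

open Matrix

section
variable {C : Type} [Field C] {n : ℕ}

/-- a matrix all whose traces `tr (p(y) y)` vanish has no eigenvalue `1` -/
lemma no_fix [CharZero C] (y : Matrix (Fin n) (Fin n) C)
    (h : ∀ p : Polynomial C, (Polynomial.aeval y p * y).trace = 0) (w : Fin n → C)
    (hw : y *ᵥ w = w) : w = 0 := by
  classical
  set χ := y.charpoly with hχ
  have hχ0 : χ ≠ 0 := (Matrix.charpoly_monic y).ne_zero
  obtain ⟨q, hq, hnd⟩ := Polynomial.exists_eq_pow_rootMultiplicity_mul_and_not_dvd χ hχ0 1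
  set k := Polynomial.rootMultiplicity 1 χ with hk
  have hirr : Irreducible (Polynomial.X - Polynomial.C (1 : C)) := Polynomial.irreducible_X_sub_C 1
  have hnd2 : ¬ (Polynomial.X - Polynomial.C (1 : C)) ∣ Polynomial.X * q := by
    intro hd
    rcases hirr.prime.dvd_or_dvd hd with h1 | h1
    · rw [Polynomial.dvd_iff_isRoot] at h1
      simp at h1
    · exact hnd h1
  have hcop : IsCoprime ((Polynomial.X - Polynomial.C (1 : C)) ^ (k + 1)) (Polynomial.X * q) :=
    IsCoprime.pow_left ((hirr.coprime_iff_not_dvd).2 hnd2)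
  obtain ⟨a, b, hab⟩ := hcop
  set p := b * (Polynomial.X * q) with hp
  set e := Polynomial.aeval y p with he
  have hCH : Polynomial.aeval y χ = 0 := Matrix.aeval_self_charpoly y
  have hidem : e * e = e := by
    have h1 : p * p = p - a * b * Polynomial.X * (Polynomial.X - Polynomial.C (1 : C)) * χ := by
      rw [hq]
      have h2 : p = 1 - a * (Polynomial.X - Polynomial.C (1 : C)) ^ (k + 1) := by
        linear_combination hab
      have h3 : p * p = p * (1 - a * (Polynomial.X - Polynomial.C (1 : C)) ^ (k + 1)) := by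
        conv_lhs => rw [h2]
        rw [← h2]
      rw [h3, hp]
      ring
    have h2 : Polynomial.aeval y (p * p) = Polynomial.aeval y p := by
      rw [h1, map_sub, map_mul (Polynomial.aeval y) _ χ, hCH, mul_zero, sub_zero]
    rw [map_mul] at h2
    exact h2
  have htr : e.trace = 0 := by
    have h1 : e = Polynomial.aeval y (b * q) * y := by
      have h2 : p = (b * q) * Polynomial.X := by rw [hp]; ring
      rw [he, h2, map_mul, Polynomial.aeval_X]
    rw [h1]
    exact h _
  have he0 : e = 0 := by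
    have h1 : IsIdempotentElem (Matrix.toLin' e) := by
      show (Matrix.toLin' e) ∘ₗ (Matrix.toLin' e) = Matrix.toLin' e
      rw [← Matrix.toLin'_mul, hidem]
    have h2 := (LinearMap.IsIdempotentElem.trace_eq_zero_iff h1).1 (by rw [Matrix.trace_toLin'_eq, htr])
    exact (LinearEquiv.map_eq_zero_iff Matrix.toLin').1 h2
  have hev : ∀ r : Polynomial C, Polynomial.aeval y r *ᵥ w = Polynomial.eval 1 r • w := by
    intro r
    induction r using Polynomial.induction_on' with
    | add r s hr hs => rw [map_add, Matrix.add_mulVec, hr, hs, Polynomial.eval_add, add_smul]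
    | monomial m c =>
      have hpow : ∀ m : ℕ, (y ^ m) *ᵥ w = w := by
        intro m
        induction m with
        | zero => simp
        | succ m ih => rw [pow_succ, ← Matrix.mulVec_mulVec, hw, ih]
      rw [Polynomial.aeval_monomial, ← Algebra.smul_def, Matrix.smul_mulVec, hpow,
        Polynomial.eval_monomial, one_pow, mul_one]
  have h1 := hev p
  rw [← he, he0, Matrix.zero_mulVec] at h1
  have h2 : Polynomial.eval 1 p = 1 := by
    have h3 := congrArg (Polynomial.eval 1) hab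
    simp only [Polynomial.eval_add, Polynomial.eval_mul, Polynomial.eval_pow, Polynomial.eval_sub,
      Polynomial.eval_X, Polynomial.eval_C, sub_self, Polynomial.eval_one] at h3
    rw [zero_pow (Nat.succ_ne_zero k), mul_zero, zero_add] at h3
    exact h3
  rw [h2, one_smul] at h1
  exact h1.symm

/-- the span of the matrices of a subgroup -/
def AA {G : Type} [Group G] (ρ : G →* GL (Fin n) C) (U : Subgroup G) :
    Submodule C (Matrix (Fin n) (Fin n) C) :=
  Submodule.span C {a | ∃ u ∈ U, a = (ρ u : Matrix (Fin n) (Fin n) C)}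

variable {G : Type} [Group G] (ρ : G →* GL (Fin n) C) (U : Subgroup G)

lemma mem_AA {u : G} (hu : u ∈ U) : (ρ u : Matrix (Fin n) (Fin n) C) ∈ AA ρ U :=
  Submodule.subset_span ⟨u, hu, rfl⟩

lemma one_AA : (1 : Matrix (Fin n) (Fin n) C) ∈ AA ρ U := by
  have := mem_AA ρ U U.one_mem
  rwa [map_one, Units.val_one] at this

lemma mul_AA {a b : Matrix (Fin n) (Fin n) C} (ha : a ∈ AA ρ U) (hb : b ∈ AA ρ U) :
    a * b ∈ AA ρ U := by
  refine Submodule.span_induction (p := fun a _ => a * b ∈ AA ρ U) ?_ ?_ ?_ ?_ ha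
  · rintro _ ⟨u, hu, rfl⟩
    refine Submodule.span_induction (p := fun b _ => (ρ u : Matrix (Fin n) (Fin n) C) * b ∈ AA ρ U)
      ?_ ?_ ?_ ?_ hb
    · rintro _ ⟨v, hv, rfl⟩
      have := mem_AA ρ U (U.mul_mem hu hv)
      rwa [map_mul, Units.val_mul] at this
    · rw [mul_zero]; exact Submodule.zero_mem _
    · intro x y _ _ hx hy
      rw [mul_add]
      exact Submodule.add_mem _ hx hy
    · intro c x _ hx
      rw [mul_smul_comm]
      exact Submodule.smul_mem _ c hx
  · rw [zero_mul]; exact Submodule.zero_mem _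
  · intro x y _ _ hx hy
    rw [add_mul]
    exact Submodule.add_mem _ hx hy
  · intro c x _ hx
    rw [smul_mul_assoc]
    exact Submodule.smul_mem _ c hx

lemma conj_AA (hU : U.Normal) (g : G) {a : Matrix (Fin n) (Fin n) C} (ha : a ∈ AA ρ U) :
    (ρ g : Matrix (Fin n) (Fin n) C) * a * (ρ g⁻¹ : Matrix (Fin n) (Fin n) C) ∈ AA ρ U := by
  refine Submodule.span_induction (p := fun a _ => (ρ g : Matrix (Fin n) (Fin n) C) * a *
    (ρ g⁻¹ : Matrix (Fin n) (Fin n) C) ∈ AA ρ U) ?_ ?_ ?_ ?_ ha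
  · rintro _ ⟨u, hu, rfl⟩
    have := mem_AA ρ U (hU.conj_mem u hu g)
    rwa [map_mul, map_mul, Units.val_mul, Units.val_mul] at this
  · rw [mul_zero, zero_mul]; exact Submodule.zero_mem _
  · intro x y _ _ hx hy
    rw [mul_add, add_mul]
    exact Submodule.add_mem _ hx hy
  · intro c x _ hx
    rw [mul_smul_comm, smul_mul_assoc]
    exact Submodule.smul_mem _ c hx

lemma aeval_AA {y : Matrix (Fin n) (Fin n) C} (hy : y ∈ AA ρ U) (p : Polynomial C) :
    Polynomial.aeval y p ∈ AA ρ U := by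
  have hpow : ∀ m : ℕ, y ^ m ∈ AA ρ U := by
    intro m
    induction m with
    | zero => rw [pow_zero]; exact one_AA ρ U
    | succ m ih => rw [pow_succ]; exact mul_AA ρ U ih hy
  induction p using Polynomial.induction_on' with
  | add r s hr hs => rw [map_add]; exact Submodule.add_mem _ hr hs
  | monomial m c =>
    rw [Polynomial.aeval_monomial, ← Algebra.smul_def]
    exact Submodule.smul_mem _ c (hpow m)

/-- the radical of the trace form -/
def Rd (r : Matrix (Fin n) (Fin n) C) : Prop := r ∈ AA ρ U ∧ ∀ a ∈ AA ρ U, (a * r).trace = 0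

lemma mul_Rd {a r : Matrix (Fin n) (Fin n) C} (ha : a ∈ AA ρ U) (hr : Rd ρ U r) :
    Rd ρ U (a * r) := by
  refine ⟨mul_AA ρ U ha hr.1, fun b hb => ?_⟩
  rw [← mul_assoc]
  exact hr.2 _ (mul_AA ρ U hb ha)

lemma val_mul_inv (g : G) : (ρ g : Matrix (Fin n) (Fin n) C) * (ρ g⁻¹ : Matrix (Fin n) (Fin n) C) = 1 := by
  rw [← Units.val_mul, ← map_mul, mul_inv_cancel, map_one, Units.val_one]

lemma val_inv_mul (g : G) : (ρ g⁻¹ : Matrix (Fin n) (Fin n) C) * (ρ g : Matrix (Fin n) (Fin n) C) = 1 := by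
  rw [← Units.val_mul, ← map_mul, inv_mul_cancel, map_one, Units.val_one]

lemma conj_Rd (hU : U.Normal) (g : G) {r : Matrix (Fin n) (Fin n) C} (hr : Rd ρ U r) :
    Rd ρ U ((ρ g : Matrix (Fin n) (Fin n) C) * r * (ρ g⁻¹ : Matrix (Fin n) (Fin n) C)) := by
  refine ⟨conj_AA ρ U hU g hr.1, fun a ha => ?_⟩
  have h1 := conj_AA ρ U hU g⁻¹ ha
  rw [inv_inv] at h1
  have h2 := hr.2 _ h1
  have h3 : (a * ((ρ g : Matrix (Fin n) (Fin n) C) * r * (ρ g⁻¹ : Matrix (Fin n) (Fin n) C))).trace =
      ((ρ g⁻¹ : Matrix (Fin n) (Fin n) C) * (a * ((ρ g : Matrix (Fin n) (Fin n) C) * r))).trace := by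
    rw [Matrix.trace_mul_comm (ρ g⁻¹ : Matrix (Fin n) (Fin n) C)]
    simp only [mul_assoc]
  rw [h3, ← h2]
  simp only [mul_assoc]

/-- no nonzero fixed vectors for elements of the radical -/
lemma Rd_fix [CharZero C] {r : Matrix (Fin n) (Fin n) C} (hr : Rd ρ U r) (w : Fin n → C)
    (hw : r *ᵥ w = w) : w = 0 :=
  no_fix r (fun p => hr.2 _ (aeval_AA ρ U hr.1 p)) w hw

/-- a nonzero stable subspace contains a nonzero vector killed by the radical -/
lemma exists_killed [CharZero C] (W : Submodule C (Fin n → C)) (hW : W ≠ ⊥)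
    (hst : ∀ a ∈ AA ρ U, ∀ v ∈ W, a *ᵥ v ∈ W) :
    ∃ v ∈ W, v ≠ 0 ∧ ∀ r, Rd ρ U r → r *ᵥ v = 0 := by
  obtain ⟨W1, ⟨h1, h2, h3⟩, hmin⟩ := (wellFounded_lt (α := Submodule C (Fin n → C))).has_min
    {W1 | W1 ≠ ⊥ ∧ W1 ≤ W ∧ ∀ a ∈ AA ρ U, ∀ v ∈ W1, a *ᵥ v ∈ W1} ⟨W, hW, le_rfl, hst⟩
  obtain ⟨w, hw, hw0⟩ := (Submodule.ne_bot_iff W1).1 h1
  refine ⟨w, h2 hw, hw0, fun r hr => ?_⟩
  by_contra hne
  let φ : Matrix (Fin n) (Fin n) C →ₗ[C] (Fin n → C) :=
    { toFun := fun a => a *ᵥ (r *ᵥ w)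
      map_add' := fun a b => Matrix.add_mulVec a b _
      map_smul' := fun c a => Matrix.smul_mulVec c a _ }
  have hφ : ∀ a, φ a = a *ᵥ (r *ᵥ w) := fun a => rfl
  set W2 := (AA ρ U).map φ with hW2
  have hrw : r *ᵥ w ∈ W1 := h3 r hr.1 w hw
  have h21 : W2 ≤ W1 := by
    rintro _ ⟨a, ha, rfl⟩
    rw [hφ]
    exact h3 a ha _ hrw
  have h20 : W2 ≠ ⊥ := by
    rw [Submodule.ne_bot_iff]
    exact ⟨r *ᵥ w, ⟨1, one_AA ρ U, by rw [hφ, Matrix.one_mulVec]⟩, hne⟩
  have h22 : ∀ a ∈ AA ρ U, ∀ v ∈ W2, a *ᵥ v ∈ W2 := by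
    rintro a ha _ ⟨b, hb, rfl⟩
    exact ⟨a * b, mul_AA ρ U ha hb, by rw [hφ, hφ]; simp only [Matrix.mulVec_mulVec, mul_assoc]⟩
  have heq : W2 = W1 := by
    by_contra hc
    exact hmin W2 ⟨h20, h21.trans h2, h22⟩ (lt_of_le_of_ne h21 hc)
  rw [← heq] at hw
  obtain ⟨a, ha, haw⟩ := hw
  rw [hφ, Matrix.mulVec_mulVec] at haw
  exact hw0 (Rd_fix ρ U (mul_Rd ρ U ha hr) w haw)

/-- the subspace killed by the radical -/
def KK : Submodule C (Fin n → C) where
  carrier := {v | ∀ r, Rd ρ U r → r *ᵥ v = 0}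
  add_mem' := by
    intro a b ha hb r hr
    rw [Matrix.mulVec_add, ha r hr, hb r hr, add_zero]
  zero_mem' := by
    intro r _
    exact Matrix.mulVec_zero r
  smul_mem' := by
    intro c a ha r hr
    rw [Matrix.mulVec_smul, ha r hr, smul_zero]

theorem main' [CharZero C] (hU : U.Normal) (hss : Pool.Agent.H500.ZO.SemiS ρ) (c : G) (hc : c ∈ U)
    (h : ∀ g ∈ U, (ρ (g * c) : Matrix (Fin n) (Fin n) C).trace =
      (ρ g : Matrix (Fin n) (Fin n) C).trace) : ρ c = 1 := by
  obtain ⟨W', hst, hcompl⟩ := hss (KK ρ U) (by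
    intro g u hu r hr
    have h1 := hu _ (by
      have := conj_Rd ρ U hU g⁻¹ hr
      rwa [inv_inv] at this)
    have h2 : r *ᵥ ((ρ g : Matrix (Fin n) (Fin n) C) *ᵥ u) = (ρ g : Matrix (Fin n) (Fin n) C) *ᵥ
        (((ρ g⁻¹ : Matrix (Fin n) (Fin n) C) * r * (ρ g : Matrix (Fin n) (Fin n) C)) *ᵥ u) := by
      rw [Matrix.mulVec_mulVec, Matrix.mulVec_mulVec]
      congr 1
      rw [← mul_assoc, ← mul_assoc, val_mul_inv, one_mul]
    rw [h2, h1, Matrix.mulVec_zero])
  have hW' : W' = ⊥ := by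
    by_contra hne
    obtain ⟨v, hv, hv0, hk⟩ := exists_killed ρ U W' hne (by
      intro a ha v hv
      refine Submodule.span_induction (p := fun a _ => a *ᵥ v ∈ W') ?_ ?_ ?_ ?_ ha
      · rintro _ ⟨u, _, rfl⟩
        exact hst u v hv
      · rw [Matrix.zero_mulVec]; exact Submodule.zero_mem _
      · intro x y _ _ hx hy
        rw [Matrix.add_mulVec]
        exact Submodule.add_mem _ hx hy
      · intro c x _ hx
        rw [Matrix.smul_mulVec]
        exact Submodule.smul_mem _ c hx)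
    have : v ∈ KK ρ U ⊓ W' := ⟨hk, hv⟩
    rw [hcompl.inf_eq_bot] at this
    exact hv0 ((Submodule.mem_bot C).1 this)
  have htop : KK ρ U = ⊤ := by
    have := hcompl.sup_eq_top
    rwa [hW', sup_bot_eq] at this
  have hx : Rd ρ U ((ρ c : Matrix (Fin n) (Fin n) C) - 1) := by
    refine ⟨Submodule.sub_mem _ (mem_AA ρ U hc) (one_AA ρ U), fun a ha => ?_⟩
    refine Submodule.span_induction (p := fun a _ =>
      (a * ((ρ c : Matrix (Fin n) (Fin n) C) - 1)).trace = 0) ?_ ?_ ?_ ?_ ha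
    · rintro _ ⟨u, hu, rfl⟩
      rw [mul_sub, mul_one, Matrix.trace_sub, ← Units.val_mul, ← map_mul, h u hu, sub_self]
    · rw [zero_mul, Matrix.trace_zero]
    · intro x y _ _ hx hy
      rw [add_mul, Matrix.trace_add, hx, hy, add_zero]
    · intro c x _ hx
      rw [smul_mul_assoc, Matrix.trace_smul, hx, smul_zero]
  have h0 : (ρ c : Matrix (Fin n) (Fin n) C) - 1 = 0 := by
    apply Matrix.toLin'.injective
    apply LinearMap.ext
    intro v
    have hv : v ∈ KK ρ U := by rw [htop]; exact Submodule.mem_top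
    rw [Matrix.toLin'_apply, hv _ hx, map_zero, LinearMap.zero_apply]
  apply Units.ext
  rw [Units.val_one]
  exact sub_eq_zero.1 h0

end

theorem main : Pool.Agent.H500.ZO.S_RAD := by
  intro G C _ _ _ n ρ U hU hss c hc h
  exact main' ρ U hU hss c hc h

end Pool.Agent.H168.ZO.RAD
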